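import Mathlib

namespace Pool.Agent.H.MP_be8317_an

open Set MeasureTheory Real Filter Topology

variable {A : Type*} [CStarAlgebra A] [PartialOrder A] [StarOrderedRing A]

def P (Z W D : A) : Prop :=
  ∀ x y : A, star x * y + star y * x + star x * D * x ≤
    star (x + y) * Z * (x + y) - star (x - y) * W * (x - y)

theorem base (a : A) (h : 0 ≤ 1 - (2 : ℝ) • a) : P (1 - a) a (1 - (2 : ℝ) • a) := fun x y => by
  rw [← sub_nonneg]
  convert star_left_conjugate_nonneg h y using 1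
  simp only [star_add, star_sub, two_smul]
  noncomm_ring

omit [PartialOrder A] [StarOrderedRing A] in
theorem par (X Y N u w : A) (s : ℝ) (hs : s ≠ 0) (hY : star Y = Y) (hN : star N = N)
    (h1 : (s • Y + X) * N = 1) (h2 : N * (s • Y + X) = 1) :
    star (u - w) * Y * (u - w) + s⁻¹ • (star w * X * w) = star u * (Y - s • (Y * N * Y)) * u +
      s⁻¹ • (star (w - s • (N * (Y * u))) * (s • Y + X) * (w - s • (N * (Y * u)))) := by
  obtain ⟨M, rfl⟩ : ∃ M, X = M - s • Y := ⟨s • Y + X, by abel⟩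
  rw [add_sub_cancel] at h1 h2 ⊢
  have a1 : ∀ z, M * (N * z) = z := fun z => by rw [← mul_assoc, h1, one_mul]
  have a2 : ∀ z, N * (M * z) = z := fun z => by rw [← mul_assoc, h2, one_mul]
  simp only [star_sub, star_smul, star_trivial, star_mul, hY, hN, mul_sub, sub_mul, smul_mul_assoc,
    mul_smul_comm, mul_assoc, a1, a2]
  match_scalars <;> field_simp <;> ring

theorem step {X Y N X' Y' N' D E : A} {s : ℝ} (hs : 0 < s) (hY : star Y = Y) (hN : star N = N)
    (h1 : (s • Y + X) * N = 1) (h2 : N * (s • Y + X) = 1) (hY' : star Y' = Y') (hN' : star N' = N')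
    (h1' : (s • Y' + X') * N' = 1) (h2' : N' * (s • Y' + X') = 1) (h0 : 0 ≤ s • Y' + X')
    (pX : P X X' D) (pY : P Y Y' E) (x y : A) :
    (1 + s)⁻¹ • (star x * y + star y * x + star x * E * x) +
      (s / (1 + s) ^ 2) • (star x * (D - E) * x) ≤
      star (x + y) * (Y - s • (Y * N * Y)) * (x + y) -
        star (x - y) * (Y' - s • (Y' * N' * Y')) * (x - y) := by
  have e1 := par X Y N (x + y) (s • (N * (Y * (x + y)))) s hs.ne' hY hN h1 h2
  rw [sub_self, mul_zero, smul_zero, add_zero] at e1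
  generalize s • (N * (Y * (x + y))) = w at e1
  have e2 := par X' Y' N' (x - y) ((2 * s / (1 + s)) • x - w) s hs.ne' hY' hN' h1' h2'
  have e3 := smul_nonneg (inv_pos.2 hs).le (star_left_conjugate_nonneg h0
    ((2 * s / (1 + s)) • x - w - s • (N' * (Y' * (x - y)))))
  have e4 := sub_nonneg.2 (pY ((1 + s)⁻¹ • x) (x + y - w - (1 + s)⁻¹ • x))
  have e5 := smul_nonneg (inv_pos.2 hs).le
    (sub_nonneg.2 (pX ((s / (1 + s)) • x) (w - (s / (1 + s)) • x)))
  rw [← sub_eq_iff_eq_add'] at e2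
  rw [← e2] at e3
  rw [← e1, ← sub_nonneg]
  convert add_nonneg e3 (add_nonneg e4 e5) using 1
  have : 1 + s ≠ 0 := by positivity
  generalize star (x - y) * (Y' - s • (Y' * N' * Y')) * (x - y) = R
  simp only [star_add, star_sub, star_smul, star_trivial, mul_sub, sub_mul, mul_add, add_mul,
    smul_mul_assoc, mul_smul_comm, mul_assoc]
  match_scalars <;> field_simp <;> ring

theorem rep {p : ℝ} (hp : p ∈ Ioo (0 : ℝ) 1) : ∃ μ : Measure ℝ, (∀ x ∈ Ici (0 : ℝ),
    IntegrableOn (fun t => rpowIntegrand₀₁ p t x) (Ioi 0) μ ∧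
      x ^ p = ∫ t in Ioi 0, rpowIntegrand₀₁ p t x ∂μ) ∧ ∀ a : A, 0 ≤ a →
    IntegrableOn (fun t => cfc (rpowIntegrand₀₁ p t) a) (Ioi 0) μ ∧
      a ^ p = ∫ t in Ioi 0, cfc (rpowIntegrand₀₁ p t) a ∂μ := by
  obtain ⟨μ, hμ⟩ := exists_measure_rpow_eq_integral_rpowIntegrand₀₁ hp
  refine ⟨μ, hμ, fun a ha => ?_⟩
  have sp : spectrum ℝ a ⊆ Ici 0 := fun _ h => spectrum_nonneg_of_nonneg ha h
  obtain ⟨r, hr⟩ := (ContinuousFunctionalCalculus.isCompact_spectrum (R := ℝ) a).bddAbove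
  have hf := continuousOn_rpowIntegrand₀₁_uncurry hp _ sp
  have hb : ∀ᵐ t ∂μ.restrict (Ioi 0), ∀ z ∈ spectrum ℝ a,
      ‖rpowIntegrand₀₁ p t z‖ ≤ rpowIntegrand₀₁ p t (max r 0) := by
    filter_upwards [ae_restrict_mem measurableSet_Ioi] with t ht z hz
    rw [Real.norm_of_nonneg (rpowIntegrand₀₁_nonneg hp.1 (le_of_lt ht) (sp hz))]
    exact rpowIntegrand₀₁_monotoneOn hp (le_of_lt ht) (sp hz) (le_max_right r 0)
      ((hr hz).trans (le_max_left r 0))
  have hi := (hμ _ (le_max_right r 0)).1.2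
  refine ⟨integrableOn_cfc measurableSet_Ioi _ _ a hf hb hi, ?_⟩
  rw [CFC.rpow_eq_cfc_real ha, ← cfc_setIntegral measurableSet_Ioi _ _ a hf hb hi]
  exact cfc_congr fun r hr => (hμ r (sp hr)).2

noncomputable def F (p : ℝ) (X Y : A) : A :=
  Y ^ (1 / 2 : ℝ) * (Y ^ (-(1 / 2) : ℝ) * X * Y ^ (-(1 / 2) : ℝ)) ^ p * Y ^ (1 / 2 : ℝ)

theorem form (p : ℝ) (hp : p ≠ 1) {X Y : A} (hX : 0 ≤ X) (hY : IsStrictlyPositive Y) {s : ℝ}
    (hs : 0 < s) : ∃ N, star N = N ∧ (s • Y + X) * N = 1 ∧ N * (s • Y + X) = 1 ∧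
      Y ^ (1 / 2 : ℝ) * cfc (rpowIntegrand₀₁ p s) (Y ^ (-(1 / 2) : ℝ) * X * Y ^ (-(1 / 2) : ℝ)) *
        Y ^ (1 / 2 : ℝ) = s ^ (p - 1) • (Y - s • (Y * N * Y)) := by
  have a1 := CFC.rpow_mul_rpow_neg (1 / 2) hY
  have a2 := CFC.rpow_neg_mul_rpow (1 / 2) hY
  have a3 : Y ^ (1 / 2 : ℝ) * Y ^ (1 / 2 : ℝ) = Y := by
    rw [← CFC.rpow_add hY.isUnit, add_halves, CFC.rpow_one Y hY.nonneg]
  have a4 : star (Y ^ (-(1 / 2) : ℝ)) = Y ^ (-(1 / 2) : ℝ) := (CFC.rpow_nonneg).star_eq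
  generalize Y ^ (1 / 2 : ℝ) = h at *
  generalize Y ^ (-(1 / 2) : ℝ) = g at *
  have hC : 0 ≤ g * X * g := by simpa only [a4] using star_left_conjugate_nonneg hX g
  have e : s • Y + X = h * (s • 1 + g * X * g) * h := by
    rw [mul_add, add_mul, ← mul_assoc, ← mul_assoc, a1, one_mul, mul_assoc X, a2, mul_one,
      mul_smul_comm, mul_one, smul_mul_assoc, a3]
  generalize g * X * g = C at *
  have ne : ∀ r ∈ spectrum ℝ C, s + r ≠ 0 := fun r hr =>
    (add_pos_of_pos_of_nonneg hs (spectrum_nonneg_of_nonneg hC hr)).ne'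
  have c1 : ContinuousOn (fun r : ℝ => (s + r)⁻¹) (spectrum ℝ C) := by fun_prop (disch := assumption)
  have c0 : ContinuousOn (fun r : ℝ => s + r) (spectrum ℝ C) := by fun_prop
  have k0 : cfc (fun r : ℝ => s + r) C = s • 1 + C := by
    rw [cfc_const_add s (fun r => r) C, cfc_id' ℝ C, Algebra.algebraMap_eq_smul_one]
  have k1 : (s • 1 + C) * cfc (fun r : ℝ => (s + r)⁻¹) C = 1 := by
    rw [← k0, ← cfc_mul _ _ C c0 c1, ← cfc_const_one ℝ C hC.isSelfAdjoint]
    exact cfc_congr fun r hr => mul_inv_cancel₀ (ne r hr)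
  have k2 : cfc (fun r : ℝ => (s + r)⁻¹) C * (s • 1 + C) = 1 := by
    rw [← k0, ← cfc_mul _ _ C c1 c0, ← cfc_const_one ℝ C hC.isSelfAdjoint]
    exact cfc_congr fun r hr => inv_mul_cancel₀ (ne r hr)
  have k3 : cfc (rpowIntegrand₀₁ p s) C =
      s ^ (p - 1) • 1 - s ^ p • cfc (fun r : ℝ => (s + r)⁻¹) C := by
    rw [rpowIntegrand₀₁_eq_sub hp hs, cfc_sub (fun _ => s ^ (p - 1))
      (fun r : ℝ => s ^ p * (s + r)⁻¹) C continuousOn_const (continuousOn_const.mul c1),
      cfc_const _ C, cfc_const_mul _ _ C c1,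
      Algebra.algebraMap_eq_smul_one]
  have k4 : star (cfc (fun r : ℝ => (s + r)⁻¹) C) = cfc (fun r : ℝ => (s + r)⁻¹) C :=
    (cfc_predicate (R := ℝ) (p := IsSelfAdjoint) _ C).star_eq
  generalize cfc (fun r : ℝ => (s + r)⁻¹) C = K at *
  generalize s • 1 + C = M at *
  have b1 : ∀ z, h * (g * z) = z := fun z => by rw [← mul_assoc, a1, one_mul]
  have b2 : ∀ z, g * (h * z) = z := fun z => by rw [← mul_assoc, a2, one_mul]
  have b3 : ∀ z, M * (K * z) = z := fun z => by rw [← mul_assoc, k1, one_mul]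
  have b4 : ∀ z, K * (M * z) = z := fun z => by rw [← mul_assoc, k2, one_mul]
  refine ⟨g * K * g, by simp only [star_mul, a4, k4, mul_assoc], ?_, ?_, ?_⟩
  · simp only [e, mul_assoc, b1, b3, a1]
  · simp only [e, mul_assoc, b2, b4, a2]
  · rw [k3, ← a3, smul_sub, smul_smul, ← rpow_add_one hs.ne', sub_add_cancel]
    simp only [mul_sub, sub_mul, smul_mul_assoc, mul_smul_comm, mul_one, mul_assoc, b1, b2]

theorem main {p : ℝ} (hp : p ∈ Ioo (0 : ℝ) 1) {X Y X' Y' D E : A} (hX : 0 ≤ X)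
    (hY : IsStrictlyPositive Y) (hX' : 0 ≤ X') (hY' : IsStrictlyPositive Y')
    (pX : P X X' D) (pY : P Y Y' E) : P (F p X Y) (F p X' Y') (E + p • (D - E)) := fun x y => by
  obtain ⟨μ, h1, h2⟩ := rep (A := A) hp
  let g (s : ℝ) := s ^ (p - 1) * (s / (1 + s) ^ 2)
  have i1 := h1 1 (mem_Ici.2 zero_le_one)
  have ig : IntegrableOn g (Ioi 0) μ := i1.1.mono' (by fun_prop) (by
    filter_upwards [ae_restrict_mem measurableSet_Ioi] with s (hs : 0 < s)
    rw [rpowIntegrand₀₁_eq_pow_div hp hs.le zero_le_one, Real.norm_of_nonneg (by positivity),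
      mul_div_assoc]
    refine mul_le_mul_of_nonneg_left ?_ (by positivity)
    rw [div_le_div_iff₀ (by positivity) (by positivity)]; nlinarith)
  have vg : ∫ s in Ioi 0, g s ∂μ = p := by
    have m : IsLocalMax (fun t : ℝ => t ^ p - (∫ s in Ioi 0, g s ∂μ) * t) 1 := by
      filter_upwards [lt_mem_nhds one_pos] with t ht
      have i2 := h1 t ht.le
      have := integral_mono_ae (i2.1.sub i1.1) (ig.mul_const (t - 1)) (by
        filter_upwards [ae_restrict_mem measurableSet_Ioi] with s (hs : 0 < s)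
        rw [Pi.sub_apply, rpowIntegrand₀₁_eq_pow_div hp hs.le zero_le_one,
          rpowIntegrand₀₁_eq_pow_div hp hs.le ht.le, mul_div_assoc, mul_div_assoc, ← mul_sub,
          mul_assoc]
        refine mul_le_mul_of_nonneg_left (sub_nonneg.1 ?_) (by positivity)
        rw [show s / (1 + s) ^ 2 * (t - 1) - (t / (s + t) - 1 / (s + 1)) =
          s * (t - 1) ^ 2 / ((1 + s) ^ 2 * (s + t)) by field_simp; ring]
        positivity)
      simp only [Pi.sub_apply] at this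
      rw [integral_sub i2.1 i1.1, integral_mul_const, ← i2.2, ← i1.2] at this
      linarith
    have := m.hasDerivAt_eq_zero ((hasDerivAt_rpow_const (.inl one_ne_zero)).sub
      ((hasDerivAt_id' (1 : ℝ)).const_mul _))
    simp only [one_rpow, mul_one] at this
    linarith
  have c : ∀ {X Y : A}, 0 ≤ X → 0 ≤ Y ^ (-(1 / 2) : ℝ) * X * Y ^ (-(1 / 2) : ℝ) := fun {X Y} h => by
    have a4 : star (Y ^ (-(1 / 2) : ℝ)) = Y ^ (-(1 / 2) : ℝ) := (CFC.rpow_nonneg).star_eq
    simpa only [a4] using star_left_conjugate_nonneg h (Y ^ (-(1 / 2) : ℝ))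
  obtain ⟨j1, j2⟩ := h2 _ (c (Y := Y) hX)
  obtain ⟨j3, j4⟩ := h2 _ (c (Y := Y') hX')
  let L := ContinuousLinearMap.mulLeftRight ℝ A (star (x + y) * Y ^ (1 / 2 : ℝ))
    (Y ^ (1 / 2 : ℝ) * (x + y))
  let L' := ContinuousLinearMap.mulLeftRight ℝ A (star (x - y) * Y' ^ (1 / 2 : ℝ))
    (Y' ^ (1 / 2 : ℝ) * (x - y))
  have := integral_mono_ae ((i1.1.smul_const (star x * y + star y * x + star x * E * x)).add
    (ig.smul_const (star x * (D - E) * x))) ((L.integrable_comp j1).sub (L'.integrable_comp j3)) (by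
      filter_upwards [ae_restrict_mem measurableSet_Ioi] with s (hs : 0 < s)
      obtain ⟨N, n1, n2, n3, n4⟩ := form p hp.2.ne hX hY hs
      obtain ⟨N', m1, m2, m3, m4⟩ := form p hp.2.ne hX' hY' hs
      have := smul_le_smul_of_nonneg_left (step hs hY.nonneg.star_eq n1 n2 n3 hY'.nonneg.star_eq m1
        m2 m3 (add_nonneg (smul_nonneg hs.le hY'.nonneg) hX') pX pY x y)
        (rpow_pos_of_pos hs (p - 1)).le
      rw [smul_sub, ← smul_mul_assoc _ _ (x + y), ← mul_smul_comm _ (star (x + y)),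
        ← smul_mul_assoc _ _ (x - y), ← mul_smul_comm _ (star (x - y)), ← n4,
        ← m4, smul_add, smul_smul, smul_smul] at this
      simp only [Pi.add_apply, Pi.sub_apply, L, L', ContinuousLinearMap.mulLeftRight_apply,
        rpowIntegrand₀₁_eq_pow_div hp hs.le zero_le_one, mul_one, add_comm s 1,
        div_eq_mul_inv _ (1 + s), g]
      simpa only [mul_assoc] using this)
  simp only [Pi.add_apply, Pi.sub_apply] at this
  rw [integral_add (i1.1.smul_const _) (ig.smul_const _), integral_smul_const, integral_smul_const,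
    ← i1.2, vg, integral_sub (L.integrable_comp j1) (L'.integrable_comp j3), L.integral_comp_comm j1,
    L'.integral_comp_comm j3, ← j2, ← j4, one_rpow, one_smul] at this
  simp only [L, L', ContinuousLinearMap.mulLeftRight_apply, mul_assoc, add_assoc] at this
  simpa only [F, mul_assoc, add_assoc, mul_add (star x), add_mul (star x * E), smul_mul_assoc,
    mul_smul_comm] using this

end Pool.Agent.H.MP_be8317_an
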